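import Pool.Agent.P.MP_bdb267_co.Killed

/-! Halvings of the Grassmannian of 3-subspaces of `F_q^6` exist for every odd prime power `q`. -/

open Module Submodule Pool.Agent.P.MP_bdb267_co

/-- For every finite field `K` with an odd number `q` of elements, the 3-dimensional subspaces of
`K^6` split into two classes, each of which is a `2-(6, 3, (q^3+q^2+q+1)/2)_q` design. -/
theorem Pool.Agent.Results.MP_bdb267_co.Halving.result (K : Type) [Field K] [Fintype K]
    (hq : Odd (Fintype.card K)) :
    ∃ D₁ D₂ : Set (Submodule K (Fin 6 → K)),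
      Disjoint D₁ D₂ ∧ D₁ ∪ D₂ = {B : Submodule K (Fin 6 → K) | Module.finrank K B = 3} ∧
      ∀ T : Submodule K (Fin 6 → K), Module.finrank K T = 2 →
        {B ∈ D₁ | T ≤ B}.ncard =
          (Fintype.card K ^ 3 + Fintype.card K ^ 2 + Fintype.card K + 1) / 2 ∧
        {B ∈ D₂ | T ≤ B}.ncard =
          (Fintype.card K ^ 3 + Fintype.card K ^ 2 + Fintype.card K + 1) / 2 := by
  classical
  obtain ⟨p, hp⟩ := CharP.exists K
  have : Fact p.Prime := ⟨CharP.char_is_prime K p⟩
  have h2 : (2 : K) ≠ 0 := by
    intro h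
    have h1 : ringChar K = 2 := by
      have : CharP K 2 := CharTwo.of_one_ne_zero_of_two_eq_zero one_ne_zero h
      exact ringChar.eq K 2
    have := FiniteField.even_card_of_char_two h1
    obtain ⟨k, hk⟩ := hq
    omega
  have hL := FiniteField.finrank_extension K p 6
  obtain ⟨χ, h1, h3⟩ := exists_balanced (L := FiniteField.Extension K p 6)
    (by rw [Nat.card_eq_fintype_card]; exact hq) h2 hL
  have hV : finrank K (Fin 6 → K) = 6 := by simp
  let e : (Fin 6 → K) ≃ₗ[K] FiniteField.Extension K p 6 := LinearEquiv.ofFinrankEq _ _ (by rw [hV, hL])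
  let E := Submodule.orderIsoMapComap e
  have hE : ∀ B : Submodule K (Fin 6 → K), finrank K (E B) = finrank K B := fun B =>
    LinearEquiv.finrank_map_eq e B
  refine ⟨{B | finrank K B = 3 ∧ χ (E B) = 1}, {B | finrank K B = 3 ∧ χ (E B) = -1}, ?_, ?_, ?_⟩
  · rw [Set.disjoint_left]
    rintro B ⟨-, hB⟩ ⟨-, hB'⟩
    omega
  · ext B
    simp only [Set.mem_union, Set.mem_ofPred_eq]
    refine ⟨fun h => h.elim And.left And.left, fun h => ?_⟩
    rcases h1 (E B) (by rw [hE, h]) with h' | h'
    · exact Or.inl ⟨h, h'⟩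
    · exact Or.inr ⟨h, h'⟩
  · intro T hT
    have : Fintype (Submodule K (Fin 6 → K)) := Fintype.ofFinite _
    set s : Finset (Submodule K (Fin 6 → K)) :=
      Finset.univ.filter (fun B => finrank K B = 3 ∧ T ≤ B) with hs
    have hsum : ∑ B ∈ s, χ (E B) = 0 := by
      rw [← h3 (E T) (s.map E.toEquiv.toEmbedding) (by rw [hE, hT]) ?_, Finset.sum_map]
      · rfl
      · intro B
        obtain ⟨B, rfl⟩ := E.surjective B
        rw [hE, E.le_iff_le]
        refine (Finset.mem_map' _).trans ?_
        simp [hs]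
    have hcard : s.card = Fintype.card K ^ 3 + Fintype.card K ^ 2 + Fintype.card K + 1 := by
      have := ncard_above T (n := 4) (by rw [hV, hT])
      rw [hT, Nat.card_eq_fintype_card] at this
      rw [← Set.ncard_coe_finset, hs, Finset.coe_filter]
      simp only [Finset.mem_univ, true_and]
      rw [this]
      simp only [Finset.sum_range_succ, Finset.range_zero, Finset.sum_empty]
      ring
    have e1 : {B ∈ {B : Submodule K (Fin 6 → K) | finrank K B = 3 ∧ χ (E B) = 1} | T ≤ B} =
        ↑(s.filter (fun B => χ (E B) = 1)) := by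
      ext B; simp only [hs, Set.mem_ofPred_eq, Finset.coe_filter, Finset.mem_filter,
        Finset.mem_univ, true_and]; tauto
    have e2 : {B ∈ {B : Submodule K (Fin 6 → K) | finrank K B = 3 ∧ χ (E B) = -1} | T ≤ B} =
        ↑(s.filter (fun B => ¬ χ (E B) = 1)) := by
      ext B
      simp only [hs, Set.mem_ofPred_eq, Finset.coe_filter, Finset.mem_filter,
        Finset.mem_univ, true_and]
      constructor
      · rintro ⟨⟨h4, h5⟩, h6⟩
        exact ⟨⟨h4, h6⟩, by omega⟩
      · rintro ⟨⟨h4, h6⟩, h5⟩
        exact ⟨⟨h4, (h1 (E B) (by rw [hE, h4])).resolve_left h5⟩, h6⟩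
    rw [e1, e2, Set.ncard_coe_finset, Set.ncard_coe_finset, ← hcard]
    have e3 := Finset.card_filter_add_card_filter_not (s := s) (fun B => χ (E B) = 1)
    rw [← Finset.sum_filter_add_sum_filter_not s (fun B => χ (E B) = 1),
      Finset.sum_congr rfl (g := fun _ => (1 : ℤ)) (fun B hB => (Finset.mem_filter.1 hB).2),
      Finset.sum_congr (s₁ := s.filter (fun B => ¬ χ (E B) = 1)) rfl (g := fun _ => (-1 : ℤ))
        (fun B hB => by
          rw [Finset.mem_filter, hs, Finset.mem_filter] at hB
          exact (h1 (E B) (by rw [hE, hB.1.2.1])).resolve_left hB.2)] at hsum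
    simp only [Finset.sum_const, nsmul_eq_mul, mul_one, mul_neg] at hsum
    omega
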